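import Pool.Agent.H800R2.Room2

set_option autoImplicit false

open Set Filter Topology MeasureTheory

namespace Pool.Agent.Results.MP_67b65f_an.DarkPocket

open Pool.Agent.H800R2

/-- For every `n ≥ 2` there are a bounded domain `Ω` in `ℝⁿ` with `C^∞` boundary and an open set
`A ⊆ Ω` of positive measure such that for no point `P` of `A` the fronts from `P` become dense as
`t → ∞`; there is even a nonempty open set `U ⊆ Ω` which no front from a point of `A` ever meets. -/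
theorem result : ∀ n : ℕ, 2 ≤ n → ∃ Ω : Set (Euc n), IsSmoothDomain Ω ∧
    ∃ A ⊆ Ω, IsOpen A ∧ 0 < volume A ∧ (∀ P ∈ A, ¬ FrontsBecomeDense Ω P) ∧
      ∃ U ⊆ Ω, IsOpen U ∧ U.Nonempty ∧ ∀ P ∈ A, ∀ t : ℝ, Disjoint (front Ω P t) U := by
  intro n hn
  set i0 : Fin n := ⟨0, by omega⟩ with hi0
  set i1 : Fin n := ⟨1, by omega⟩ with hi1
  have hi : i1 ≠ i0 := by
    rw [hi0, hi1]
    simp
  set U : Set (Euc n) := {p | p ∈ Room.Dom i0 ∧ Room.Y i0 p < -1 / 2} with hU
  set A : Set (Euc n) := {p | 0 < Room.G i0 p ∧ -1 / 2 < Room.Y i0 p ∧ Room.Y i0 p < 0 ∧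
    Room.R i0 p < 1} with hA
  have hUo : IsOpen U := Room.isOpen_Dom.inter (isOpen_lt Room.continuous_Y continuous_const)
  have hAo : IsOpen A := (isOpen_lt continuous_const Room.continuous_G).inter
    ((isOpen_lt continuous_const Room.continuous_Y).inter
      ((isOpen_lt Room.continuous_Y continuous_const).inter
        (isOpen_lt Room.continuous_R continuous_const)))
  have hUne : U.Nonempty := by
    refine ⟨(-3 / 2 : ℝ) • Room.e i0, ⟨?_, ?_⟩, ?_⟩
    · unfold Room.Q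
      rw [Room.R_axis, Room.Y_smul, Room.Y_e]
      norm_num
    · unfold Room.G
      rw [Room.R_axis, Room.Y_smul, Room.Y_e]
      norm_num
    · rw [Room.Y_smul, Room.Y_e]
      norm_num
  have hAne : A.Nonempty := by
    refine ⟨(-1 / 20 : ℝ) • Room.e i0, ?_, ?_, ?_, ?_⟩
    · unfold Room.G
      rw [Room.R_axis, Room.Y_smul, Room.Y_e]
      norm_num
    · rw [Room.Y_smul, Room.Y_e]
      norm_num
    · rw [Room.Y_smul, Room.Y_e]
      norm_num
    · rw [Room.R_axis]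
      norm_num
  have hAs : A ⊆ Room.Dom i0 := by
    rintro p ⟨h1, h2, h3, h4⟩
    refine ⟨?_, h1⟩
    unfold Room.Q
    nlinarith
  have hdis : ∀ P ∈ A, ∀ t : ℝ, Disjoint (front (Room.Dom i0) P t) U := by
    intro P hP t
    rw [Set.disjoint_left]
    rintro q ⟨v, hv, hph⟩ ⟨hq1, hq2⟩
    have := Room.Lit.photon hph (Or.inr ⟨hP.2.1, hP.2.2.1, hP.2.2.2⟩)
    linarith
  refine ⟨Room.Dom i0, Room.isSmoothDomain_Dom hi, A, hAs, hAo, hAo.measure_pos _ hAne, ?_,
    U, fun p hp => hp.1, hUo, hUne, hdis⟩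
  intro P hP hd
  obtain ⟨x, hx⟩ := hUne
  obtain ⟨ε, hε, hball⟩ := Metric.isOpen_iff.1 hUo x hx
  obtain ⟨T, hT⟩ := hd ε hε
  obtain ⟨q, hq, hdist⟩ := hT T le_rfl x hx.1
  exact Set.disjoint_left.1 (hdis P hP T) hq (hball (by rw [Metric.mem_ball, dist_comm]; exact hdist))

end Pool.Agent.Results.MP_67b65f_an.DarkPocket
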