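import Pool.Agent.H800R2.BallDense

set_option autoImplicit false

open Set Filter Topology

namespace Pool.Agent.Results.MP_67b65f_an.RoundBall

open Pool.Agent.H800R2

/-- In a round ball (a round disk if `n = 2`) of `ℝⁿ`, `n ≥ 2`, the fronts from a point `P` of the
ball become dense as `t → ∞` if and only if `P` is not the centre. -/
theorem result : ∀ n : ℕ, 2 ≤ n → ∀ (c : Euc n) (r : ℝ), ∀ P ∈ Metric.ball c r,
    (FrontsBecomeDense (Metric.ball c r) P ↔ P ≠ c) :=
  fun _ hn _ _ _ hP => Ball.dense_iff hn hP

end Pool.Agent.Results.MP_67b65f_an.RoundBall
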